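import Pool.Agent.Lib.MP_2d002d_gt.PM.Interfaces

/-!
Module BC2 (helper28): the integral over the box is a smooth function of the parameter and of the walls.
-/

set_option autoImplicit false

open MeasureTheory Set Filter Topology
open scoped ENNReal Pointwise

namespace Pool.Agent.Lib.MP_2d002d_gt.PM.H28

/-- An integral over a compact set of a `C^k` function of all variables is `C^k` in the parameter. -/
theorem contDiff_par {E Y : Type} [NormedAddCommGroup E] [NormedSpace ℝ E] [ProperSpace E]
    [NormedAddCommGroup Y] [NormedSpace ℝ Y] [ProperSpace Y] [MeasurableSpace Y] [BorelSpace Y]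
    (μ : Measure Y) [IsLocallyFiniteMeasure μ] (K : Set Y) (hK : IsCompact K) (k : ℕ) :
    ∀ (V : Type) [NormedAddCommGroup V] [NormedSpace ℝ V] (f : E × Y → V),
      ContDiff ℝ k f → ContDiff ℝ k (fun p => ∫ y in K, f (p, y) ∂μ) := by
  have : SecondCountableTopology Y := secondCountable_of_proper
  induction k with
  | zero =>
    intro V _ _ f hf
    rw [CharP.cast_eq_zero, contDiff_zero] at hf ⊢
    exact continuous_parametric_integral_of_continuous (f := fun p y => f (p, y)) hf hK
  | succ k ih =>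
    intro V _ _ f hf
    have hf1 : ContDiff ℝ ((k : ℕ) + 1) f := by exact_mod_cast hf
    have hcast : (((k + 1 : ℕ)) : WithTop ℕ∞) = (k : WithTop ℕ∞) + 1 := by push_cast; rfl
    rw [hcast, contDiff_succ_iff_hasFDerivAt]
    have hdiff : Differentiable ℝ f := hf1.differentiable (by simp)
    have hfd : ContDiff ℝ k (fun q : E × Y => (fderiv ℝ f q).comp (ContinuousLinearMap.inl ℝ E Y)) := by
      have h1 : ContDiff ℝ k (fderiv ℝ f) := hf1.fderiv_right le_rfl
      exact h1.clm_comp contDiff_const
    refine ⟨fun p => ∫ y in K, (fderiv ℝ f (p, y)).comp (ContinuousLinearMap.inl ℝ E Y) ∂μ, ih _ _ hfd, ?_⟩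
    intro p
    have hcf : Continuous f := hf1.continuous
    have hcd : Continuous (fun q : E × Y => (fderiv ℝ f q).comp (ContinuousLinearMap.inl ℝ E Y)) := hfd.continuous
    obtain ⟨M, hM⟩ := ((isCompact_closedBall p 1).prod hK).bddAbove_image hcd.norm.continuousOn
    refine hasFDerivAt_integral_of_dominated_of_fderiv_le (𝕜 := ℝ) (μ := μ.restrict K) (F := fun p y => f (p, y))
      (F' := fun p y => (fderiv ℝ f (p, y)).comp (ContinuousLinearMap.inl ℝ E Y)) (s := Metric.closedBall p 1)
      (bound := fun _ => M) (Metric.closedBall_mem_nhds p one_pos) ?_ ?_ ?_ ?_ ?_ ?_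
    · exact Filter.Eventually.of_forall fun x => Continuous.aestronglyMeasurable (by fun_prop)
    · exact (Continuous.continuousOn (by fun_prop)).integrableOn_compact hK
    · exact Continuous.aestronglyMeasurable (hcd.comp (by fun_prop))
    · refine (ae_restrict_mem hK.measurableSet).mono fun y hy x hx => ?_
      exact hM (mem_image_of_mem _ (mk_mem_prod hx hy))
    · exact integrableOn_const hK.measure_ne_top
    · refine Filter.Eventually.of_forall fun y x _ => ?_
      have h1 := (hdiff (x, y)).hasFDerivAt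
      have h2 : HasFDerivAt (fun x : E => ((x, y) : E × Y)) (ContinuousLinearMap.inl ℝ E Y) x :=
        hasFDerivAt_prodMk_left x y
      exact h1.comp x h2

/-- scaling of the box -/
theorem HB_scale {n : ℕ} (U : ℝ × (Fin n → ℝ) → ℝ) (hU : Continuous U) (p : ℝ × (Fin n → ℝ))
    (hp : ∀ i, 0 < p.2 i) :
    (HB U p).toReal = (∏ i, p.2 i) *
      ∫ y in (univ.pi fun _ : Fin n => Icc (-1 : ℝ) 1), Real.exp (-U (p.1, fun i => p.2 i * y i)) := by
  classical
  set g : (Fin n → ℝ) → ℝ≥0∞ := fun x =>
    (if ∀ i, |x i| ≤ p.2 i then ENNReal.ofReal (Real.exp (-U (p.1, x))) else 0) with hg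
  have hmg : Measurable g := by
    refine Measurable.ite ?_ (by fun_prop) measurable_const
    have : {a : Fin n → ℝ | ∀ i, |a i| ≤ p.2 i} = ⋂ i, {a | |a i| ≤ p.2 i} := by ext; simp
    rw [this]
    refine MeasurableSet.iInter fun i => ?_
    exact measurableSet_le (by fun_prop) measurable_const
  have hdet : (Matrix.diagonal p.2).det = ∏ i, p.2 i := Matrix.det_diagonal
  have hpos : 0 < ∏ i, p.2 i := Finset.prod_pos fun i _ => hp i
  have h1 : ∫⁻ x, g x = ENNReal.ofReal (∏ i, p.2 i) * ∫⁻ y : Fin n → ℝ, g (fun i => p.2 i * y i) := by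
    have h2 := Real.smul_map_diagonal_volume_pi (D := p.2) (by rw [hdet]; exact hpos.ne')
    rw [hdet, abs_of_pos hpos] at h2
    conv_lhs => rw [← h2]
    rw [lintegral_smul_measure, lintegral_map hmg]
    · congr 1
      refine lintegral_congr fun y => ?_
      congr 1
      ext i
      simp [Matrix.toLin'_apply, Matrix.mulVec_diagonal]
    · exact (LinearMap.continuous_on_pi _).measurable
  have h3 : ∀ y : Fin n → ℝ, g (fun i => p.2 i * y i) =
      (univ.pi fun _ : Fin n => Icc (-1 : ℝ) 1).indicator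
        (fun y => ENNReal.ofReal (Real.exp (-U (p.1, fun i => p.2 i * y i)))) y := by
    intro y
    have h4 : (∀ i, |p.2 i * y i| ≤ p.2 i) ↔ y ∈ (univ.pi fun _ : Fin n => Icc (-1 : ℝ) 1) := by
      rw [mem_univ_pi]
      refine forall_congr' fun i => ?_
      rw [mem_Icc, ← abs_le, abs_mul, abs_of_pos (hp i)]
      exact mul_le_iff_le_one_right (hp i)
    by_cases h : y ∈ (univ.pi fun _ : Fin n => Icc (-1 : ℝ) 1)
    · rw [indicator_of_mem h, hg]
      simp only
      rw [if_pos (h4.2 h)]
    · rw [indicator_of_notMem h, hg]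
      simp only
      rw [if_neg (fun h' => h (h4.1 h'))]
  have hbox : MeasurableSet (univ.pi fun _ : Fin n => Icc (-1 : ℝ) 1) :=
    MeasurableSet.univ_pi fun _ => measurableSet_Icc
  have hcK : IsCompact (univ.pi fun _ : Fin n => Icc (-1 : ℝ) 1) := isCompact_univ_pi fun _ => isCompact_Icc
  have h5 : HB U p = ENNReal.ofReal (∏ i, p.2 i) * ∫⁻ y in (univ.pi fun _ : Fin n => Icc (-1 : ℝ) 1),
      ENNReal.ofReal (Real.exp (-U (p.1, fun i => p.2 i * y i))) := by
    unfold HB
    rw [← lintegral_indicator hbox]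
    rw [h1]
    congr 1
    exact lintegral_congr h3
  have hcont : Continuous (fun y : Fin n → ℝ => Real.exp (-U (p.1, fun i => p.2 i * y i))) := by fun_prop
  rw [h5, ← ofReal_integral_eq_lintegral_ofReal (hcont.continuousOn.integrableOn_compact hcK)
    (Filter.Eventually.of_forall fun _ => (Real.exp_pos _).le), ENNReal.toReal_mul, ENNReal.toReal_ofReal hpos.le,
    ENNReal.toReal_ofReal (integral_nonneg fun _ => (Real.exp_pos _).le)]

theorem bc2 : BC2_S := by
  intro n U α β hU
  have hc : Continuous U := hU.smooth.continuous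
  have hK : IsCompact (univ.pi fun _ : Fin n => Icc (-1 : ℝ) 1) := isCompact_univ_pi fun _ => isCompact_Icc
  have hF : ContDiff ℝ (2 : ℕ) (fun q : (ℝ × (Fin n → ℝ)) × (Fin n → ℝ) =>
      Real.exp (-U (q.1.1, fun i => q.1.2 i * q.2 i))) := by
    refine ContDiff.exp (ContDiff.neg (hU.smooth.comp ?_))
    refine ContDiff.prodMk (contDiff_fst.fst) ?_
    rw [contDiff_pi]
    intro i
    refine ContDiff.mul ?_ ?_
    · exact (contDiff_apply ℝ ℝ i).comp (contDiff_fst.snd)
    · exact (contDiff_apply ℝ ℝ i).comp contDiff_snd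
  have h1 := contDiff_par (E := ℝ × (Fin n → ℝ)) (Y := Fin n → ℝ) volume _ hK 2 ℝ _ hF
  have h2 : ContDiff ℝ (2 : ℕ) (fun p : ℝ × (Fin n → ℝ) => (∏ i, p.2 i) *
      ∫ y in (univ.pi fun _ : Fin n => Icc (-1 : ℝ) 1), Real.exp (-U (p.1, fun i => p.2 i * y i))) := by
    refine ContDiff.mul ?_ h1
    refine contDiff_prod fun i _ => ?_
    exact (contDiff_apply ℝ ℝ i).comp contDiff_snd
  refine ContDiffOn.congr (h2.contDiffOn) ?_
  intro p hp
  exact HB_scale U hc p hp.2

end Pool.Agent.Lib.MP_2d002d_gt.PM.H28
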